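import Pool.Agent.H23.DM.TargetsQ

/-!
# (QT) the mean square over a family of boxes: from the classes to the box
-/

set_option autoImplicit false

open NumberField NumberField.InfinitePlace MeasureTheory Set Filter Complex
open scoped nonZeroDivisors ENNReal

namespace Pool.Agent.H81.DMQ.QT

open Pool.Agent.H25.HK Pool.Agent.H23.LB Pool.Agent.H23.LC
open Pool.Agent.H29.DW (dg Rl lf wv Pos Wg cpar Ci om zs rv Wt)
open Pool.Agent.H31.SW (PP dK)
open Pool.Agent.H29.DW (PrG)
open Pool.Agent.H31.SX (LK)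
open Pool.Agent.H27.TM (Cls Sp1 InT cq)
open Pool.Agent.H23.DM

/-- the exponent of the dyadic interval of `x` -/
private noncomputable def lg (x : ℝ) : ℕ := Nat.log 2 ⌊x⌋₊

private theorem lg_le {x : ℝ} (hx : 1 ≤ x) : (2 : ℝ) ^ lg x ≤ x := by
  have h1 : 1 ≤ ⌊x⌋₊ := Nat.le_floor (by exact_mod_cast hx)
  have h2 : 2 ^ lg x ≤ ⌊x⌋₊ := Nat.pow_log_le_self 2 (by omega)
  calc (2 : ℝ) ^ lg x = ((2 ^ lg x : ℕ) : ℝ) := by push_cast; rfl
    _ ≤ (⌊x⌋₊ : ℝ) := by exact_mod_cast h2
    _ ≤ x := Nat.floor_le (by linarith)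

private theorem lt_lg (x : ℝ) : x < 2 * (2 : ℝ) ^ lg x := by
  have h2 : ⌊x⌋₊ < 2 ^ (lg x + 1) := Nat.lt_pow_succ_log_self (by norm_num) _
  have h3 : (⌊x⌋₊ : ℝ) + 1 ≤ 2 ^ (lg x + 1) := by exact_mod_cast h2
  calc x < (⌊x⌋₊ : ℝ) + 1 := Nat.lt_floor_add_one x
    _ ≤ 2 ^ (lg x + 1) := h3
    _ = 2 * 2 ^ lg x := by ring

private theorem lg_mono {x y : ℝ} (h : x ≤ y) : lg x ≤ lg y :=
  Nat.log_mono_right (Nat.floor_le_floor h)

/-- the number of the dyadic intervals -/
private theorem lg_bound (δ : ℝ) (hδ : 0 < δ) (T : ℝ) (hT : 1 ≤ T) :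
    ((lg (2 * T) + 1 : ℕ) : ℝ) ≤ (2 + 2 / δ) * T ^ δ := by
  have h1 : (2 : ℝ) ^ lg (2 * T) ≤ 2 * T := lg_le (by linarith)
  have h2 : (lg (2 * T) : ℝ) * Real.log 2 ≤ Real.log 2 + Real.log T := by
    rw [← Real.log_mul (by norm_num) (by linarith), ← Real.log_pow]
    exact Real.log_le_log (by positivity) h1
  have h3 : 1 / 2 < Real.log 2 := by
    have := Real.log_two_gt_d9
    linarith
  have h4 : Real.log T ≤ T ^ δ / δ := Real.log_le_rpow_div (by linarith) hδ
  have h5 : 1 ≤ T ^ δ := Real.one_le_rpow hT hδ.le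
  have h6 : 0 ≤ Real.log T := Real.log_nonneg hT
  have h7 : (lg (2 * T) : ℝ) ≤ 1 + 2 * Real.log T := by
    have h8 : (lg (2 * T) : ℝ) * Real.log 2 ≤ (1 + 2 * Real.log T) * Real.log 2 := by
      nlinarith
    exact le_of_mul_le_mul_right h8 (by linarith)
  push_cast
  have h9 : (2 + 2 / δ) * T ^ δ = 2 * T ^ δ + 2 * (T ^ δ / δ) := by ring
  rw [h9]
  linarith

section

variable {K : Type} [Field K] [NumberField K] {f : Ideal (𝓞 K)}

/-- the frequencies are bounded -/
private theorem cq_norm (q : HG K f × ℝ) (v : InfinitePlace K) :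
    ‖cq q v‖ ≤ 2 * |q.2 - q.1.ν v| + |(q.1.k v : ℝ)| := by
  unfold cq cpar
  split_ifs with h
  · rw [Complex.norm_real, Real.norm_eq_abs]
    have h1 := abs_nonneg (q.2 - q.1.ν v)
    have h2 := abs_nonneg (q.1.k v : ℝ)
    linarith
  · refine (norm_add_le _ _).trans ?_
    rw [Complex.norm_real, Real.norm_eq_abs, abs_mul, norm_mul, Complex.norm_I, mul_one,
      Complex.norm_intCast]
    norm_num

/-- the frequencies are real at the real places -/
private theorem cq_real (q : HG K f × ℝ) (v : InfinitePlace K) : Rl (rv v) (cq q v) := by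
  unfold cq cpar Rl rv
  split_ifs with h <;> simp [h]

end

theorem pf_QT (hQL : D_QL) : D_QT := by
  classical
  intro n hn
  obtain ⟨B, hB, hLT1⟩ := hQL n hn
  refine ⟨B, hB, fun ε hε hε1 => ?_⟩
  obtain ⟨C, hC, hLT2⟩ := hLT1 (ε / 2) (by linarith) (by linarith)
  set C₁ : ℝ := 2 + 2 / (ε / 2) with hC₁
  have hC₁1 : 1 ≤ C₁ := by
    have : 0 ≤ 2 / (ε / 2) := by positivity
    rw [hC₁]
    linarith
  refine ⟨C₁ ^ n * C * (((2 : ℝ) ^ n) ^ (ε / 2) * 2 ^ n), by positivity, ?_⟩
  intro K _ _ hK l k κ hlk hkq Y L hL H T S bl hHT hPr hin hsp hcl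
  have hT : ∀ v, 1 ≤ T v := fun v => (one_le_pow₀ (hHT v).1).trans (hHT v).2
  have hplaces : Fintype.card (InfinitePlace K) ≤ n := by
    have h2 := card_add_two_mul_card_eq_rank K
    have h3 := card_eq_nrRealPlaces_add_nrComplexPlaces K
    omega
  have hmult : ∑ v : InfinitePlace K, v.mult = n := by
    rw [← hK]
    exact sum_mult_eq
  have hD : 0 ≤ dK K * (Nf K l * Nf K k.radical) := by
    unfold dK Nf
    positivity
  have hNk : 1 ≤ Nf K k := by
    unfold Nf
    have h1 : Ideal.absNorm k ≠ 0 := fun h => hlk.k_ne (Ideal.absNorm_eq_zero_iff.1 h)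
    exact_mod_cast Nat.one_le_iff_ne_zero.2 h1
  have hPT : 1 ≤ PP T := by
    unfold PP
    calc (1 : ℝ) = ∏ _v : InfinitePlace K, (1 : ℝ) := by rw [Finset.prod_const_one]
      _ ≤ _ := Finset.prod_le_prod (fun _ _ => zero_le_one) fun v _ => one_le_pow₀ (hT v)
  have hNk0 : 0 < Nf K k := by linarith
  have hNκ0 : 0 ≤ Nf K κ := by
    unfold Nf
    positivity
  have hPH0 : 0 ≤ PP H := by
    unfold PP
    exact Finset.prod_nonneg fun v _ => pow_nonneg (by linarith [(hHT v).1]) _
  set g : ℝ := Nf K κ * PP H with hg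
  have hg0 : 0 ≤ g := mul_nonneg hNκ0 hPH0
  set R : ℝ := ((S.image bl).card : ℝ) with hR
  have hR0 : 0 ≤ R := by
    rw [hR]
    positivity
  set X : ℝ := R * g + R ^ (1 / 2 : ℝ) * (Nf K k * PP T / g ^ 2) with hX
  have hPT0 : 0 < PP T := by linarith
  have hX0 : 0 ≤ X := by
    rw [hX]
    positivity
  -- the classes
  set a : HG K (l * k) × ℝ → InfinitePlace K → ℕ := fun q v => lg (1 + ‖cq q v‖) with ha
  set P : Finset (InfinitePlace K → ℕ) :=
    Fintype.piFinset (fun v => Finset.range (lg (2 * T v) + 1)) with hP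
  have hbound : ∀ q ∈ S, ∀ v, 1 + ‖cq q v‖ ≤ 2 * T v := by
    intro q hq v
    have h1 := cq_norm q v
    have h2 := hin q hq v
    have h3 := abs_nonneg (q.2 - q.1.ν v)
    have h4 := abs_nonneg (q.1.k v : ℝ)
    linarith [hT v]
  have hmaps : ∀ q ∈ S, a q ∈ P := by
    intro q hq
    rw [hP, Fintype.mem_piFinset]
    intro v
    rw [Finset.mem_range]
    exact Nat.lt_succ_of_le (lg_mono (hbound q hq v))
  rw [← Finset.sum_fiberwise_of_maps_to hmaps]
  have hclass : ∀ b ∈ P, ∑ q ∈ S with a q = b, ‖L q.1 (1 / 2 + q.2 * I)‖ ^ 2 ≤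
      C * ((dK K * (Nf K l * Nf K k.radical)) ^ B *
        (2 ^ n * (Nf K k * PP T)) ^ (ε / 2) * (2 ^ n * X)) := by
    intro b hb
    have hnn : 0 ≤ C * ((dK K * (Nf K l * Nf K k.radical)) ^ B *
        (2 ^ n * (Nf K k * PP T)) ^ (ε / 2) * (2 ^ n * X)) := by positivity
    rcases (S.filter (fun q => a q = b)).eq_empty_or_nonempty with he | ⟨q₀, hq₀⟩
    · rw [he, Finset.sum_empty]
      exact hnn
    have hq₀S := (Finset.mem_filter.1 hq₀).1
    have hq₀b := (Finset.mem_filter.1 hq₀).2
    have hb2 : ∀ v, (2 : ℝ) ^ b v ≤ 2 * T v := fun v => by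
      rw [← hq₀b]
      refine (lg_le ?_).trans (hbound q₀ hq₀S v)
      have := norm_nonneg (cq q₀ v)
      linarith
    have hprod : ∀ F : InfinitePlace K → ℝ, (∀ v, 0 ≤ F v ∧ F v ≤ 2 * T v) →
        PP F ≤ 2 ^ n * PP T := by
      intro F hF
      unfold PP
      calc ∏ v : InfinitePlace K, F v ^ v.mult
          ≤ ∏ v : InfinitePlace K, (2 * T v) ^ v.mult :=
            Finset.prod_le_prod (fun v _ => pow_nonneg (hF v).1 _)
              fun v _ => pow_le_pow_left₀ (hF v).1 (hF v).2 _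
        _ = 2 ^ n * ∏ v : InfinitePlace K, T v ^ v.mult := by
            simp_rw [mul_pow]
            rw [Finset.prod_mul_distrib, Finset.prod_pow_eq_pow_sum, hmult]
    have h1 := hLT2 K hK l k κ hlk hkq Y L hL H (fun v => (2 : ℝ) ^ b v)
      (S.filter fun q => a q = b) bl
      (fun v => ⟨(hHT v).1, one_le_pow₀ (by norm_num)⟩)
      (fun q hq => hPr q (Finset.mem_filter.1 hq).1) ?_ ?_ ?_
    · refine h1.trans ?_
      apply mul_le_mul_of_nonneg_left _ hC
      have hA : 0 ≤ (dK K * (Nf K l * Nf K k.radical)) ^ B := by positivity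
      have h2 : (Nf K k * PP fun v => (2 : ℝ) ^ b v) ^ (ε / 2) ≤
          (2 ^ n * (Nf K k * PP T)) ^ (ε / 2) := by
        apply Real.rpow_le_rpow _ _ (by linarith)
        · unfold PP
          positivity
        · rw [mul_left_comm]
          exact mul_le_mul_of_nonneg_left (hprod _ fun v => ⟨by positivity, hb2 v⟩) hNk0.le
      have hRb : ((((S.filter fun q => a q = b).image bl).card : ℕ) : ℝ) ≤ R := by
        rw [hR]
        exact_mod_cast Finset.card_le_card (Finset.image_subset_image (Finset.filter_subset _ _))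
      have h3 : QB k κ (fun v => (2 : ℝ) ^ b v) H
          ((((S.filter fun q => a q = b).image bl).card : ℕ) : ℝ) ≤ 2 ^ n * X := by
        unfold QB
        rw [← hg]
        have h5 : PP (fun v => max ((2 : ℝ) ^ b v) (H v ^ 3)) ≤ 2 ^ n * PP T :=
          hprod _ fun v => ⟨le_max_of_le_left (by positivity), max_le (hb2 v)
            ((hHT v).2.trans (by linarith [hT v]))⟩
        have h6 : ((((S.filter fun q => a q = b).image bl).card : ℕ) : ℝ) * g ≤
            2 ^ n * (R * g) := by
          have h7 : ((((S.filter fun q => a q = b).image bl).card : ℕ) : ℝ) * g ≤ R * g :=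
            mul_le_mul_of_nonneg_right hRb hg0
          have h8 : 1 * (R * g) ≤ 2 ^ n * (R * g) :=
            mul_le_mul_of_nonneg_right (one_le_pow₀ (by norm_num)) (by positivity)
          linarith
        have h9 : ((((S.filter fun q => a q = b).image bl).card : ℕ) : ℝ) ^ (1 / 2 : ℝ) *
            (Nf K k * PP (fun v => max ((2 : ℝ) ^ b v) (H v ^ 3)) / g ^ 2) ≤
            R ^ (1 / 2 : ℝ) * (Nf K k * (2 ^ n * PP T) / g ^ 2) := by
          apply mul_le_mul
          · exact Real.rpow_le_rpow (by positivity) hRb (by norm_num)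
          · apply div_le_div_of_nonneg_right _ (by positivity)
            exact mul_le_mul_of_nonneg_left h5 hNk0.le
          · apply div_nonneg _ (by positivity)
            apply mul_nonneg hNk0.le
            unfold PP
            exact Finset.prod_nonneg fun v _ => pow_nonneg
              (le_max_of_le_left (by positivity)) _
          · positivity
        have h10 : R ^ (1 / 2 : ℝ) * (Nf K k * (2 ^ n * PP T) / g ^ 2) =
            2 ^ n * (R ^ (1 / 2 : ℝ) * (Nf K k * PP T / g ^ 2)) := by ring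
        rw [hX]
        linarith
      have h4 : 0 ≤ QB k κ (fun v => (2 : ℝ) ^ b v) H
          ((((S.filter fun q => a q = b).image bl).card : ℕ) : ℝ) := by
        unfold QB
        rw [← hg]
        have h5 : 0 ≤ PP (fun v => max ((2 : ℝ) ^ b v) (H v ^ 3)) := by
          unfold PP
          exact Finset.prod_nonneg fun v _ => pow_nonneg (le_max_of_le_left (by positivity)) _
        positivity
      exact mul_le_mul (mul_le_mul_of_nonneg_left h2 hA) h3 h4 (by positivity)
    · intro q hq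
      have hqb := (Finset.mem_filter.1 hq).2
      have hnn : ∀ v, 1 ≤ 1 + ‖cq q v‖ := fun v => by
        have := norm_nonneg (cq q v)
        linarith
      refine ⟨fun v => one_le_pow₀ (by norm_num), fun v => ?_, fun v => ?_, cq_real q⟩
      · rw [← hqb]
        exact lg_le (hnn v)
      · rw [← hqb]
        exact (lt_lg _).le
    · intro p hp q hq
      exact hsp p (Finset.mem_filter.1 hp).1 q (Finset.mem_filter.1 hq).1
    · intro p hp q hq
      exact hcl p (Finset.mem_filter.1 hp).1 q (Finset.mem_filter.1 hq).1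
  refine (Finset.sum_le_card_nsmul _ _ _ hclass).trans ?_
  rw [nsmul_eq_mul]
  have hcard : (P.card : ℝ) ≤ C₁ ^ n * PP T ^ (ε / 2) := by
    rw [hP, Fintype.card_piFinset]
    push_cast
    simp only [Finset.card_range]
    calc ∏ v : InfinitePlace K, ((lg (2 * T v) + 1 : ℕ) : ℝ)
        ≤ ∏ v : InfinitePlace K, (C₁ * (T v ^ v.mult) ^ (ε / 2)) := by
          apply Finset.prod_le_prod (fun v _ => by positivity)
          intro v _
          refine (lg_bound (ε / 2) (by linarith) (T v) (hT v)).trans ?_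
          apply mul_le_mul_of_nonneg_left _ (by positivity)
          apply Real.rpow_le_rpow (by linarith [hT v]) _ (by linarith)
          exact le_self_pow₀ (hT v) (by
            have := v.mult_pos
            omega)
      _ = C₁ ^ Fintype.card (InfinitePlace K) * PP T ^ (ε / 2) := by
          rw [Finset.prod_mul_distrib, Finset.prod_const, Finset.card_univ]
          congr 1
          unfold PP
          rw [Real.finsetProd_rpow _ _ (fun v _ => by
            have := hT v
            positivity)]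
      _ ≤ C₁ ^ n * PP T ^ (ε / 2) := by
          apply mul_le_mul_of_nonneg_right _ (by positivity)
          exact pow_le_pow_right₀ hC₁1 hplaces
  have hQ0 : 0 < Nf K k * PP T := mul_pos hNk0 hPT0
  have hPQ : PP T ^ (ε / 2) ≤ (Nf K k * PP T) ^ (ε / 2) :=
    Real.rpow_le_rpow hPT0.le (le_mul_of_one_le_left hPT0.le hNk) (by linarith)
  calc (P.card : ℝ) * (C * ((dK K * (Nf K l * Nf K k.radical)) ^ B *
          (2 ^ n * (Nf K k * PP T)) ^ (ε / 2) * (2 ^ n * X)))
      ≤ (C₁ ^ n * (Nf K k * PP T) ^ (ε / 2)) * (C * ((dK K * (Nf K l * Nf K k.radical)) ^ B *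
          (2 ^ n * (Nf K k * PP T)) ^ (ε / 2) * (2 ^ n * X))) := by
        apply mul_le_mul_of_nonneg_right
          (hcard.trans (mul_le_mul_of_nonneg_left hPQ (by positivity)))
        positivity
    _ = C₁ ^ n * C * (((2 : ℝ) ^ n) ^ (ε / 2) * 2 ^ n) *
        ((dK K * (Nf K l * Nf K k.radical)) ^ B *
          ((Nf K k * PP T) ^ (ε / 2) * (Nf K k * PP T) ^ (ε / 2)) * X) := by
        rw [Real.mul_rpow (by positivity) hQ0.le]
        ring
    _ = _ := by
        rw [← Real.rpow_add hQ0, add_halves]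

end Pool.Agent.H81.DMQ.QT
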